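import Pool.Agent.helper62.VD.SpecL

/-!
# Row vd:ALSY (Lagrangian data)
-/

set_option autoImplicit false

open scoped ContDiff Topology InnerProductSpace ComplexConjugate ENNReal
open MeasureTheory Filter Set

namespace Pool.Agent.VD

noncomputable section

/-- the complexification of a real matrix -/
def ALSY_c {d : ℕ} (A : Matrix (Fin d) (Fin d) ℝ) : MC d := A.map (fun x => (x : ℂ))

theorem ALSY_c_mul {d : ℕ} (A B : Matrix (Fin d) (Fin d) ℝ) : ALSY_c (A * B) = ALSY_c A * ALSY_c B := by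
  ext i j
  simp [ALSY_c, Matrix.mul_apply]

theorem ALSY_c_one {d : ℕ} : ALSY_c (1 : Matrix (Fin d) (Fin d) ℝ) = 1 := by
  ext i j
  simp only [ALSY_c, Matrix.map_apply, Matrix.one_apply]
  split_ifs <;> simp

theorem ALSY_c_sub {d : ℕ} (A B : Matrix (Fin d) (Fin d) ℝ) : ALSY_c (A - B) = ALSY_c A - ALSY_c B := by
  ext i j
  simp [ALSY_c]

theorem ALSY_c_t {d : ℕ} (A : Matrix (Fin d) (Fin d) ℝ) : (ALSY_c A).transpose = ALSY_c A.transpose := by
  ext i j
  simp [ALSY_c]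

theorem ALSY_c_h {d : ℕ} (A : Matrix (Fin d) (Fin d) ℝ) : (ALSY_c A).conjTranspose = ALSY_c A.transpose := by
  ext i j
  simp [ALSY_c, Matrix.conjTranspose_apply]

/-- the algebra of the symplectic condition -/
theorem ALSY_alg {R : Type} [Ring R] (a b c e y p : R) (a' b' c' e' y' p' : R) (h1 : a' * c = c' * a) (h2 : b' * e = e' * b) (h3 : a' * e - c' * b = 1)
    (h4 : e' * a - b' * c = 1) :
    (y' * a' + p' * b') * (c * y + e * p) - (y' * c' + p' * e') * (a * y + b * p) = y' * p - p' * y := by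
  have e1 : (y' * a' + p' * b') * (c * y + e * p) - (y' * c' + p' * e') * (a * y + b * p) =
      y' * (a' * c - c' * a) * y + y' * (a' * e - c' * b) * p - p' * (e' * a - b' * c) * y + p' * (b' * e - e' * b) * p := by
    noncomm_ring
  rw [e1, h1, h2, h3, h4]
  simp

theorem ALSY_mul_bd {d : ℕ} (A Y : MC d) (a L : ℝ) (hA : ∀ i j, ‖A i j‖ ≤ a) (hY : ∀ i j, ‖Y i j‖ ≤ L) (ha : 0 ≤ a) (i j : Fin d) :
    ‖(A * Y) i j‖ ≤ d * (a * L) := by
  rw [Matrix.mul_apply]
  calc ‖∑ k, A i k * Y k j‖ ≤ ∑ k, ‖A i k * Y k j‖ := norm_sum_le _ _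
    _ ≤ ∑ _k : Fin d, a * L := by
        apply Finset.sum_le_sum
        intro k _
        rw [norm_mul]
        exact mul_le_mul (hA i k) (hY k j) (norm_nonneg _) ha
    _ = d * (a * L) := by simp

theorem ALSY_part1 (d : ℕ) (M : ℝ) (f : P d → P d) (p : P d) (L : ℝ) (Y0 P0 : MC d) (hL : 1 ≤ L)
    (hs : ∀ v w, omg (fderiv ℝ f p v) (fderiv ℝ f p w) = omg v w) (hM : ‖fderiv ℝ f p‖ ≤ M) (hl : Lag L Y0 P0) (C : ℝ) (hC : 2 * d * M ≤ C) :
    Lag (C * L) (Yf f p Y0 P0) (Pf f p Y0 P0) := by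
  have hM0 : 0 ≤ M := (norm_nonneg _).trans hM
  set A : Matrix (Fin d) (Fin d) ℝ := Matrix.of fun i j => (fderiv ℝ f p (EuclideanSpace.single j 1, 0)).1 i with hA
  set B : Matrix (Fin d) (Fin d) ℝ := Matrix.of fun i j => (fderiv ℝ f p (0, EuclideanSpace.single j 1)).1 i with hB
  set E : Matrix (Fin d) (Fin d) ℝ := Matrix.of fun i j => (fderiv ℝ f p (EuclideanSpace.single j 1, 0)).2 i with hE
  set D : Matrix (Fin d) (Fin d) ℝ := Matrix.of fun i j => (fderiv ℝ f p (0, EuclideanSpace.single j 1)).2 i with hD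
  have eY : Yf f p Y0 P0 = ALSY_c A * Y0 + ALSY_c B * P0 := rfl
  have eP : Pf f p Y0 P0 = ALSY_c E * Y0 + ALSY_c D * P0 := rfl
  have in1 : ∀ u v : V d, ⟪u, v⟫_ℝ = ∑ k, u k * v k := by
    intro u v
    rw [PiLp.inner_apply]
    apply Finset.sum_congr rfl
    intro k _
    simp [mul_comm]
  have r1 : A.transpose * E = E.transpose * A := by
    ext i j
    have := hs (EuclideanSpace.single i 1, 0) (EuclideanSpace.single j 1, 0)
    simp only [omg, inner_zero_left, sub_zero] at this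
    rw [in1, in1] at this
    simp only [Matrix.mul_apply, Matrix.transpose_apply, hA, hE, Matrix.of_apply]
    have h2 : ∑ k, (fderiv ℝ f p (EuclideanSpace.single i 1, 0)).1 k * (fderiv ℝ f p (EuclideanSpace.single j 1, 0)).2 k =
      ∑ k, (fderiv ℝ f p (EuclideanSpace.single j 1, 0)).2 k * (fderiv ℝ f p (EuclideanSpace.single i 1, 0)).1 k := by
      apply Finset.sum_congr rfl
      intro k _
      ring
    rw [h2]
    linarith
  have r2 : B.transpose * D = D.transpose * B := by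
    ext i j
    have := hs (0, EuclideanSpace.single i 1) (0, EuclideanSpace.single j 1)
    simp only [omg, inner_zero_right, sub_zero] at this
    rw [in1, in1] at this
    simp only [Matrix.mul_apply, Matrix.transpose_apply, hB, hD, Matrix.of_apply]
    have h2 : ∑ k, (fderiv ℝ f p (0, EuclideanSpace.single i 1)).1 k * (fderiv ℝ f p (0, EuclideanSpace.single j 1)).2 k =
      ∑ k, (fderiv ℝ f p (0, EuclideanSpace.single j 1)).2 k * (fderiv ℝ f p (0, EuclideanSpace.single i 1)).1 k := by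
      apply Finset.sum_congr rfl
      intro k _
      ring
    rw [h2]
    linarith
  have r4 : D.transpose * A - B.transpose * E = 1 := by
    ext i j
    have := hs (0, EuclideanSpace.single i 1) (EuclideanSpace.single j 1, 0)
    simp only [omg, inner_zero_left, sub_zero] at this
    rw [in1, in1, in1] at this
    simp only [Matrix.sub_apply, Matrix.mul_apply, Matrix.transpose_apply, hA, hB, hD, hE, Matrix.of_apply]
    have h2 : ∑ k, (fderiv ℝ f p (0, EuclideanSpace.single i 1)).1 k * (fderiv ℝ f p (EuclideanSpace.single j 1, 0)).2 k =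
      ∑ k, (fderiv ℝ f p (EuclideanSpace.single j 1, 0)).2 k * (fderiv ℝ f p (0, EuclideanSpace.single i 1)).1 k := by
      apply Finset.sum_congr rfl
      intro k _
      ring
    rw [h2, this]
    rw [Matrix.one_apply]
    simp [eq_comm]
  have r3 : A.transpose * D - E.transpose * B = 1 := by
    have := congrArg Matrix.transpose r4
    simpa [Matrix.transpose_mul] using this
  have q1 : ALSY_c A.transpose * ALSY_c E = ALSY_c E.transpose * ALSY_c A := by rw [← ALSY_c_mul, ← ALSY_c_mul, r1]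
  have q2 : ALSY_c B.transpose * ALSY_c D = ALSY_c D.transpose * ALSY_c B := by rw [← ALSY_c_mul, ← ALSY_c_mul, r2]
  have q3 : ALSY_c A.transpose * ALSY_c D - ALSY_c E.transpose * ALSY_c B = 1 := by rw [← ALSY_c_mul, ← ALSY_c_mul, ← ALSY_c_sub, r3, ALSY_c_one]
  have q4 : ALSY_c D.transpose * ALSY_c A - ALSY_c B.transpose * ALSY_c E = 1 := by rw [← ALSY_c_mul, ← ALSY_c_mul, ← ALSY_c_sub, r4, ALSY_c_one]
  have nrm1 : ∀ v : P d, ∀ i, |v.1 i| ≤ ‖v‖ := fun v i => by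
    have := PiLp.norm_apply_le v.1 i
    exact (by simpa using this : |v.1 i| ≤ ‖v.1‖).trans (norm_fst_le v)
  have nrm2 : ∀ v : P d, ∀ i, |v.2 i| ≤ ‖v‖ := fun v i => by
    have := PiLp.norm_apply_le v.2 i
    exact (by simpa using this : |v.2 i| ≤ ‖v.2‖).trans (norm_snd_le v)
  have nj1 : ∀ j : Fin d, ‖fderiv ℝ f p (EuclideanSpace.single j 1, 0)‖ ≤ M := fun j => by
    refine (ContinuousLinearMap.le_opNorm _ _).trans ?_
    have : ‖((EuclideanSpace.single j 1 : V d), (0 : V d))‖ = 1 := by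
      rw [Prod.norm_def]; simp
    rw [this, mul_one]; exact hM
  have nj2 : ∀ j : Fin d, ‖fderiv ℝ f p (0, EuclideanSpace.single j 1)‖ ≤ M := fun j => by
    refine (ContinuousLinearMap.le_opNorm _ _).trans ?_
    have : ‖((0 : V d), (EuclideanSpace.single j 1 : V d))‖ = 1 := by
      rw [Prod.norm_def]; simp
    rw [this, mul_one]; exact hM
  have bA : ∀ i j, ‖ALSY_c A i j‖ ≤ M := fun i j => by
    simp only [ALSY_c, Matrix.map_apply, Complex.norm_real, Real.norm_eq_abs]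
    exact (nrm1 _ i).trans (nj1 j)
  have bB : ∀ i j, ‖ALSY_c B i j‖ ≤ M := fun i j => by
    simp only [ALSY_c, Matrix.map_apply, Complex.norm_real, Real.norm_eq_abs]
    exact (nrm1 _ i).trans (nj2 j)
  have bE : ∀ i j, ‖ALSY_c E i j‖ ≤ M := fun i j => by
    simp only [ALSY_c, Matrix.map_apply, Complex.norm_real, Real.norm_eq_abs]
    exact (nrm2 _ i).trans (nj1 j)
  have bD : ∀ i j, ‖ALSY_c D i j‖ ≤ M := fun i j => by
    simp only [ALSY_c, Matrix.map_apply, Complex.norm_real, Real.norm_eq_abs]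
    exact (nrm2 _ i).trans (nj2 j)
  have hfin : (d : ℝ) * (M * L) + d * (M * L) ≤ C * L := by
    have : 2 * d * M * L ≤ C * L := mul_le_mul_of_nonneg_right hC (by linarith)
    linarith
  refine ⟨?_, ?_, ?_, ?_⟩
  · rw [eY, eP]
    rw [← sub_eq_zero]
    have := ALSY_alg (ALSY_c A) (ALSY_c B) (ALSY_c E) (ALSY_c D) Y0 P0 (ALSY_c A.transpose) (ALSY_c B.transpose) (ALSY_c E.transpose) (ALSY_c D.transpose)
      Y0.transpose P0.transpose q1 q2 q3 q4
    rw [Matrix.transpose_add, Matrix.transpose_add, Matrix.transpose_mul, Matrix.transpose_mul, Matrix.transpose_mul, Matrix.transpose_mul,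
      ALSY_c_t, ALSY_c_t, ALSY_c_t, ALSY_c_t, this, hl.sym, sub_self]
  · rw [eY, eP]
    have := ALSY_alg (ALSY_c A) (ALSY_c B) (ALSY_c E) (ALSY_c D) Y0 P0 (ALSY_c A.transpose) (ALSY_c B.transpose) (ALSY_c E.transpose) (ALSY_c D.transpose)
      Y0.conjTranspose P0.conjTranspose q1 q2 q3 q4
    rw [Matrix.conjTranspose_add, Matrix.conjTranspose_add, Matrix.conjTranspose_mul, Matrix.conjTranspose_mul, Matrix.conjTranspose_mul,
      Matrix.conjTranspose_mul, ALSY_c_h, ALSY_c_h, ALSY_c_h, ALSY_c_h, this, hl.pos]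
  · intro i j
    rw [eY, Matrix.add_apply]
    exact (norm_add_le _ _).trans ((add_le_add (ALSY_mul_bd _ _ M L bA hl.bdY hM0 i j) (ALSY_mul_bd _ _ M L bB hl.bdP hM0 i j)).trans hfin)
  · intro i j
    rw [eP, Matrix.add_apply]
    exact (norm_add_le _ _).trans ((add_le_add (ALSY_mul_bd _ _ M L bE hl.bdY hM0 i j) (ALSY_mul_bd _ _ M L bD hl.bdP hM0 i j)).trans hfin)

/-- the sesquilinear identity -/
theorem ALSY_ses {d : ℕ} (L : ℝ) (Y Q : MC d) (hl : Lag L Y Q) (u : Fin d → ℂ) :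
    star (Y.mulVec u) ⬝ᵥ Q.mulVec u - star (Q.mulVec u) ⬝ᵥ Y.mulVec u = (2 * Complex.I) * (star u ⬝ᵥ u) := by
  have h1 : ∀ A B : MC d, star (A.mulVec u) ⬝ᵥ B.mulVec u = star u ⬝ᵥ (A.conjTranspose * B).mulVec u := by
    intro A B
    rw [Matrix.star_mulVec, ← Matrix.dotProduct_mulVec, Matrix.mulVec_mulVec]
  rw [h1, h1, ← dotProduct_sub, ← Matrix.sub_mulVec, hl.pos, Matrix.smul_mulVec, Matrix.one_mulVec, dotProduct_smul, smul_eq_mul]

theorem ALSY_sq {d : ℕ} (u : Fin d → ℂ) : star u ⬝ᵥ u = ((∑ k, ‖u k‖ ^ 2 : ℝ) : ℂ) := by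
  rw [dotProduct]
  push_cast
  apply Finset.sum_congr rfl
  intro k _
  rw [Pi.star_apply]
  have := Complex.normSq_eq_conj_mul_self (z := u k)
  rw [Complex.star_def, ← this, Complex.normSq_eq_norm_sq]
  push_cast
  rfl

theorem ALSY_det {d : ℕ} (L : ℝ) (Y Q : MC d) (hl : Lag L Y Q) : Y.det ≠ 0 := by
  intro h0
  obtain ⟨u, hu, hYu⟩ := Matrix.exists_mulVec_eq_zero_iff.2 h0
  have h1 := ALSY_ses L Y Q hl u
  rw [hYu] at h1
  simp only [star_zero, zero_dotProduct, dotProduct_zero, sub_zero] at h1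
  have h2 : star u ⬝ᵥ u = 0 := by
    have h3 : (2 * Complex.I) ≠ 0 := by simp
    rcases mul_eq_zero.1 h1.symm with h | h
    · exact absurd h h3
    · exact h
  rw [ALSY_sq] at h2
  have h3 : ∑ k, ‖u k‖ ^ 2 = 0 := by exact_mod_cast h2
  apply hu
  funext k
  have h4 := (Finset.sum_eq_zero_iff_of_nonneg (fun i _ => by positivity)).1 h3 k (Finset.mem_univ k)
  simpa using h4

theorem ALSY_inv {d : ℕ} (L : ℝ) (Y Q : MC d) (hl : Lag L Y Q) (hL : 1 ≤ L) (i j : Fin d) : ‖Y⁻¹ i j‖ ≤ d * L := by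
  have hdet := ALSY_det L Y Q hl
  have hun : IsUnit Y.det := isUnit_iff_ne_zero.2 hdet
  set u : Fin d → ℂ := Y⁻¹.mulVec (Pi.single j 1) with hu
  have hui : ∀ k, u k = Y⁻¹ k j := fun k => by
    rw [hu, Matrix.mulVec_single_one]; rfl
  have hYu : Y.mulVec u = Pi.single j 1 := by
    rw [hu, Matrix.mulVec_mulVec, Matrix.mul_nonsing_inv _ hun, Matrix.one_mulVec]
  have h1 := ALSY_ses L Y Q hl u
  rw [hYu, ALSY_sq] at h1
  have h2 : star (Pi.single j (1 : ℂ) : Fin d → ℂ) ⬝ᵥ Q.mulVec u = Q.mulVec u j := by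
    have : star (Pi.single j (1 : ℂ) : Fin d → ℂ) = Pi.single j 1 := by
      funext k
      by_cases hk : k = j
      · subst hk; simp
      · simp [hk]
    rw [this]; simp
  have h3 : star (Q.mulVec u) ⬝ᵥ (Pi.single j (1 : ℂ) : Fin d → ℂ) = star (Q.mulVec u j) := by
    simp
  rw [h2, h3] at h1
  have hs0 : 0 ≤ ∑ k, ‖u k‖ := Finset.sum_nonneg (fun k _ => norm_nonneg _)
  have h4 : 2 * ∑ k, ‖u k‖ ^ 2 ≤ 2 * (L * ∑ k, ‖u k‖) := by
    have e1 : ‖(2 * Complex.I) * ((∑ k, ‖u k‖ ^ 2 : ℝ) : ℂ)‖ = 2 * ∑ k, ‖u k‖ ^ 2 := by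
      rw [norm_mul, norm_mul, Complex.norm_I, Complex.norm_real, Real.norm_eq_abs, abs_of_nonneg (Finset.sum_nonneg (fun k _ => by positivity))]
      norm_num
    rw [← e1, ← h1]
    have e2 : ‖Q.mulVec u j‖ ≤ L * ∑ k, ‖u k‖ := by
      rw [Matrix.mulVec, dotProduct, Finset.mul_sum]
      refine (norm_sum_le _ _).trans (Finset.sum_le_sum fun k _ => ?_)
      rw [norm_mul]
      exact mul_le_mul_of_nonneg_right (hl.bdP j k) (norm_nonneg _)
    calc ‖Q.mulVec u j - star (Q.mulVec u j)‖ ≤ ‖Q.mulVec u j‖ + ‖star (Q.mulVec u j)‖ := norm_sub_le _ _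
      _ = 2 * ‖Q.mulVec u j‖ := by rw [norm_star]; ring
      _ ≤ _ := by linarith
  have h5 : (∑ k, ‖u k‖) ^ 2 ≤ d * ∑ k, ‖u k‖ ^ 2 := by
    have := sq_sum_le_card_mul_sum_sq (s := Finset.univ) (f := fun k : Fin d => ‖u k‖)
    simpa using this
  have h6 : ∑ k, ‖u k‖ ≤ d * L := by
    by_contra hcon
    push Not at hcon
    have hpos : 0 < ∑ k, ‖u k‖ := lt_of_le_of_lt (by positivity) hcon
    have h7 : (∑ k, ‖u k‖) ^ 2 ≤ (d * L) * ∑ k, ‖u k‖ := by
      calc (∑ k, ‖u k‖) ^ 2 ≤ d * ∑ k, ‖u k‖ ^ 2 := h5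
        _ ≤ d * (L * ∑ k, ‖u k‖) := mul_le_mul_of_nonneg_left (by linarith) (Nat.cast_nonneg d)
        _ = _ := by ring
    nlinarith
  rw [← hui i]
  exact (Finset.single_le_sum (fun k _ => norm_nonneg (u k)) (Finset.mem_univ i)).trans h6

theorem ALSY_detbd {d : ℕ} (Y : MC d) (L : ℝ) (hY : ∀ i j, ‖Y i j‖ ≤ L) : ‖Y.det‖ ≤ (d.factorial : ℝ) * L ^ d := by
  rw [Matrix.det_apply]
  refine (norm_sum_le _ _).trans ?_
  calc ∑ σ : Equiv.Perm (Fin d), ‖Equiv.Perm.sign σ • ∏ i, Y (σ i) i‖ ≤ ∑ _σ : Equiv.Perm (Fin d), L ^ d := by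
        apply Finset.sum_le_sum
        intro σ _
        have e1 : ‖Equiv.Perm.sign σ • ∏ i, Y (σ i) i‖ = ‖∏ i, Y (σ i) i‖ := by
          rcases Int.units_eq_one_or (Equiv.Perm.sign σ) with h | h <;> rw [h] <;> simp
        rw [e1, norm_prod]
        calc ∏ i, ‖Y (σ i) i‖ ≤ ∏ _i : Fin d, L := Finset.prod_le_prod (fun i _ => norm_nonneg _) (fun i _ => hY _ _)
          _ = L ^ d := by simp
    _ = (d.factorial : ℝ) * L ^ d := by
        rw [Finset.sum_const, Finset.card_univ, Fintype.card_perm, Fintype.card_fin, nsmul_eq_mul]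

theorem ALSY_qf {d : ℕ} (L : ℝ) (Y Q : MC d) (hl : Lag L Y Q) (w : V d) : 0 ≤ (qf (Q * Y⁻¹) w).im := by
  have hdet := ALSY_det L Y Q hl
  have hun : IsUnit Y.det := isUnit_iff_ne_zero.2 hdet
  set wc : Fin d → ℂ := fun k => ((w k : ℝ) : ℂ) with hwc
  set u : Fin d → ℂ := Y⁻¹.mulVec wc with hu
  have hYu : Y.mulVec u = wc := by
    rw [hu, Matrix.mulVec_mulVec, Matrix.mul_nonsing_inv _ hun, Matrix.one_mulVec]
  have hst : star wc = wc := by
    funext k
    simp [hwc]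
  have h1 := ALSY_ses L Y Q hl u
  rw [hYu, ALSY_sq, hst] at h1
  have h2 : qf (Q * Y⁻¹) w = wc ⬝ᵥ Q.mulVec u := by
    rw [hu, Matrix.mulVec_mulVec, qf, dotProduct]
    apply Finset.sum_congr rfl
    intro i _
    rw [Matrix.mulVec, dotProduct, Finset.mul_sum]
    apply Finset.sum_congr rfl
    intro j _
    simp only [hwc]
    push_cast
    ring
  have h3 : star (Q.mulVec u) ⬝ᵥ wc = star (wc ⬝ᵥ Q.mulVec u) := by
    rw [Matrix.star_dotProduct, hst, dotProduct_comm]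
  rw [h3, ← h2] at h1
  have h4 := congrArg Complex.im h1
  have hnn : 0 ≤ ∑ k, ‖u k‖ ^ 2 := Finset.sum_nonneg (fun k _ => by positivity)
  simp only [Complex.sub_im, Complex.star_def, Complex.conj_im, Complex.mul_im, Complex.mul_re, Complex.I_re, Complex.I_im, Complex.ofReal_re,
    Complex.ofReal_im, Complex.re_ofNat, Complex.im_ofNat] at h4
  linarith

theorem ALSY_proof : ALSY_stmt := by
  intro d M
  have hf : (1 : ℝ) ≤ (d.factorial : ℝ) := by exact_mod_cast d.factorial_pos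
  have hd0 : (0 : ℝ) ≤ (d : ℝ) := Nat.cast_nonneg d
  have hd1 : (1 : ℝ) ≤ (d : ℝ) + 1 := by linarith
  have hpw : (1 : ℝ) ≤ ((d : ℝ) + 1) ^ (d + 2) := one_le_pow₀ hd1
  have hpw2 : ((d : ℝ) + 1) ^ 2 ≤ ((d : ℝ) + 1) ^ (d + 2) := pow_le_pow_right₀ hd1 (by omega)
  have hpw1 : ((d : ℝ) + 1) ≤ ((d : ℝ) + 1) ^ (d + 2) := by
    calc ((d : ℝ) + 1) = ((d : ℝ) + 1) ^ 1 := (pow_one _).symm
      _ ≤ _ := pow_le_pow_right₀ hd1 (by omega)
  have hpwd : (d : ℝ) ^ d ≤ ((d : ℝ) + 1) ^ (d + 2) := by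
    calc (d : ℝ) ^ d ≤ ((d : ℝ) + 1) ^ d := pow_le_pow_left₀ hd0 (by linarith) d
      _ ≤ _ := pow_le_pow_right₀ hd1 (by omega)
  set F : ℝ := (d.factorial : ℝ) * ((d : ℝ) + 1) ^ (d + 2) with hF
  have hFp : ((d : ℝ) + 1) ^ (d + 2) ≤ F := by
    rw [hF]; exact le_mul_of_one_le_left (by positivity) hf
  have hFf : (d.factorial : ℝ) ≤ F := by
    rw [hF]; exact le_mul_of_one_le_right (by positivity) hpw
  set C : ℝ := 2 * (d + 1) * (|M| + 1) + F with hC
  have hA0 : 0 ≤ 2 * ((d : ℝ) + 1) * (|M| + 1) := by positivity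
  have hCF : F ≤ C := by rw [hC]; linarith
  have hC1 : 1 ≤ C := hpw.trans (hFp.trans hCF)
  have hCd : (d : ℝ) ≤ C := by linarith [hpw1.trans (hFp.trans hCF)]
  have hpow : ∀ L : ℝ, 1 ≤ L → L ^ d ≤ L ^ C := by
    intro L hL
    rw [← Real.rpow_natCast]
    exact Real.rpow_le_rpow_of_exponent_le hL hCd
  refine ⟨C, hC1, ?_, ?_, ?_⟩
  · intro f p L Y0 P0 hL hs hM hl
    refine ALSY_part1 d M f p L Y0 P0 hL hs hM hl C ?_
    have hM0 : 0 ≤ M := (norm_nonneg _).trans hM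
    have h1 : 2 * (d : ℝ) * M ≤ 2 * (d + 1) * (|M| + 1) := by
      have := le_abs_self M
      have h2 : 2 * (d : ℝ) ≤ 2 * (d + 1) := by linarith
      exact mul_le_mul h2 (by linarith) hM0 (by positivity)
    rw [hC]
    linarith [hpw.trans hFp]
  · intro L Y Q hL hl
    have hdet := ALSY_det L Y Q hl
    have hun : IsUnit Y.det := isUnit_iff_ne_zero.2 hdet
    have hL0 : 0 ≤ L := by linarith
    refine ⟨hdet, ?_, ?_, ALSY_qf L Y Q hl, ?_⟩
    · refine (ALSY_detbd Y L hl.bdY).trans ?_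
      exact mul_le_mul (hFf.trans hCF) (hpow L hL) (by positivity) (by linarith)
    · have h1 := ALSY_detbd Y⁻¹ (d * L) (ALSY_inv L Y Q hl hL)
      rw [Matrix.det_nonsing_inv, Ring.inverse_eq_inv', norm_inv, mul_pow, ← mul_assoc] at h1
      refine h1.trans ?_
      refine mul_le_mul ?_ (hpow L hL) (by positivity) (by linarith)
      refine le_trans ?_ hCF
      rw [hF]
      exact mul_le_mul_of_nonneg_left hpwd (by positivity)
    · intro i j
      refine (ALSY_mul_bd Q Y⁻¹ L (d * L) hl.bdP (ALSY_inv L Y Q hl hL) hL0 i j).trans ?_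
      have h2 : (d : ℝ) * (L * (d * L)) = d ^ 2 * L ^ 2 := by ring
      rw [h2]
      refine mul_le_mul_of_nonneg_right ?_ (by positivity)
      have h3 : (d : ℝ) ^ 2 ≤ ((d : ℝ) + 1) ^ 2 := pow_le_pow_left₀ hd0 (by linarith) 2
      exact h3.trans (hpw2.trans (hFp.trans hCF))
  · refine ⟨?_, ?_, ?_, ?_⟩
    · simp
    · rw [Matrix.conjTranspose_one, Matrix.one_mul, Matrix.mul_one, Matrix.conjTranspose_smul, Matrix.conjTranspose_one, Complex.star_def, Complex.conj_I,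
        ← sub_smul]
      congr 1
      ring
    · intro i j
      by_cases h : i = j
      · subst h; simp
      · simp [Matrix.one_apply_ne h]
    · intro i j
      by_cases h : i = j
      · subst h; simp
      · simp [Matrix.one_apply_ne h]

end

end Pool.Agent.VD
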