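import Pool.Agent.helper62.VD.SpecL2

/-!
# Row vd:A9DD (the density of the big step)
-/

set_option autoImplicit false

open scoped ContDiff Topology InnerProductSpace ComplexConjugate ENNReal
open MeasureTheory Filter Set

namespace Pool.Agent.VD

open Pool.Agent.VQ (CH cmZ)

noncomputable section

/-! ## Cauchy-Schwarz -/

theorem A9DD_conj {α : Type} [MeasurableSpace α] {μ : Measure α} {g : α → ℂ} (hg : MemLp g 2 μ) : MemLp (fun x => conj (g x)) 2 μ := by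
  have h := hg.star
  exact h

theorem A9DD_int {α : Type} [MeasurableSpace α] {μ : Measure α} {f g : α → ℂ} (hf : MemLp f 2 μ) (hg : MemLp g 2 μ) :
    Integrable (fun x => f x * conj (g x)) μ :=
  MemLp.integrable_mul (p := 2) (q := 2) hf (A9DD_conj hg)

theorem A9DD_cs {α : Type} [MeasurableSpace α] {μ : Measure α} {f g : α → ℂ} (hf : MemLp f 2 μ) (hg : MemLp g 2 μ) :
    ‖∫ x, f x * conj (g x) ∂μ‖ ≤ Real.sqrt (∫ x, ‖f x‖ ^ 2 ∂μ) * Real.sqrt (∫ x, ‖g x‖ ^ 2 ∂μ) := by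
  have h1 : ‖∫ x, f x * conj (g x) ∂μ‖ ≤ ∫ x, ‖f x‖ * ‖g x‖ ∂μ := by
    refine (norm_integral_le_integral_norm _).trans (le_of_eq ?_)
    apply integral_congr_ae
    filter_upwards with x
    rw [norm_mul, RCLike.norm_conj]
  refine h1.trans ?_
  have h2 : ENNReal.ofReal (2 : ℝ) = 2 := by norm_num
  have h3 := integral_mul_norm_le_Lp_mul_Lq (μ := μ) (f := f) (g := g) (p := 2) (q := 2) Real.HolderConjugate.two_two (by rw [h2]; exact hf) (by rw [h2]; exact hg)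
  have e1 : ∀ φ : α → ℂ, (∫ a, ‖φ a‖ ^ (2 : ℝ) ∂μ) ^ (1 / (2 : ℝ)) = Real.sqrt (∫ x, ‖φ x‖ ^ 2 ∂μ) := by
    intro φ
    rw [← Real.sqrt_eq_rpow]
    congr 1
    apply integral_congr_ae
    filter_upwards with x
    rw [Real.rpow_two]
  rw [e1, e1] at h3
  exact h3

/-- the abstract comparison -/
theorem A9DD_abs {α : Type} [MeasurableSpace α] {μ : Measure α} {w v q j : α → ℂ} (hw : MemLp w 2 μ) (hv : MemLp v 2 μ) (hq : MemLp q 2 μ) (hj : MemLp j 2 μ) :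
    ‖∫ x, w x * conj (v x) ∂μ‖ ≤ Real.sqrt (∫ x, ‖w x‖ ^ 2 ∂μ) * Real.sqrt (∫ x, ‖v x - q x‖ ^ 2 ∂μ) +
      Real.sqrt (∫ x, ‖w x - j x‖ ^ 2 ∂μ) * Real.sqrt (∫ x, ‖q x‖ ^ 2 ∂μ) + ‖∫ x, j x * conj (q x) ∂μ‖ := by
  have hu : MemLp (fun x => v x - q x) 2 μ := hv.sub hq
  have hk : MemLp (fun x => w x - j x) 2 μ := hw.sub hj
  have e1 : ∫ x, w x * conj (v x) ∂μ = ∫ x, w x * conj (v x - q x) ∂μ + (∫ x, (w x - j x) * conj (q x) ∂μ + ∫ x, j x * conj (q x) ∂μ) := by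
    have i2 : Integrable (fun x => (w x - j x) * conj (q x) + j x * conj (q x)) μ := (A9DD_int hk hq).add (A9DD_int hj hq)
    rw [← integral_add (A9DD_int hk hq) (A9DD_int hj hq), ← integral_add (A9DD_int hw hu) i2]
    apply integral_congr_ae
    filter_upwards with x
    rw [map_sub]
    ring
  rw [e1]
  have h1 := A9DD_cs hw hu
  have h2 := A9DD_cs hk hq
  have h3 := norm_add_le (∫ x, w x * conj (v x - q x) ∂μ) (∫ x, (w x - j x) * conj (q x) ∂μ + ∫ x, j x * conj (q x) ∂μ)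
  have h4 := norm_add_le (∫ x, (w x - j x) * conj (q x) ∂μ) (∫ x, j x * conj (q x) ∂μ)
  linarith

theorem A9DD_abs2 {α : Type} [MeasurableSpace α] {μ : Measure α} {g S L : α → ℂ} {M : ℝ} (hg : MemLp g 2 μ) (hS : MemLp S 2 μ) (hL : MemLp L 2 μ) (hg1 : Integrable g μ)
    (hM : ∀ x, ‖L x‖ ≤ M) :
    ‖∫ x, g x * conj (S x) ∂μ‖ ≤ Real.sqrt (∫ x, ‖g x‖ ^ 2 ∂μ) * Real.sqrt (∫ x, ‖S x - L x‖ ^ 2 ∂μ) + M * ∫ x, ‖g x‖ ∂μ := by
  have hu : MemLp (fun x => S x - L x) 2 μ := hS.sub hL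
  have e1 : ∫ x, g x * conj (S x) ∂μ = ∫ x, g x * conj (S x - L x) ∂μ + ∫ x, g x * conj (L x) ∂μ := by
    rw [← integral_add (A9DD_int hg hu) (A9DD_int hg hL)]
    apply integral_congr_ae
    filter_upwards with x
    rw [map_sub]
    ring
  rw [e1]
  have h1 := A9DD_cs hg hu
  have h2 : ‖∫ x, g x * conj (L x) ∂μ‖ ≤ M * ∫ x, ‖g x‖ ∂μ := by
    rw [← integral_const_mul]
    refine norm_integral_le_of_norm_le (hg1.norm.const_mul M) ?_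
    filter_upwards with x
    rw [norm_mul, RCLike.norm_conj, mul_comm]
    exact mul_le_mul_of_nonneg_right (hM x) (norm_nonneg _)
  exact (norm_add_le _ _).trans (add_le_add h1 h2)

/-! ## Functions of the index -/

theorem A9DD_window {Γ : Type} {d : ℕ} [Group Γ] [MulAction Γ (V d)] {G : V d → V d →L[ℝ] V d} {r0 c R : ℝ} :
    GW Γ G r0 c R = {y : YS Γ d | y.2 ∈ {p : P d | ‖p.1‖ ≤ r0 ∧ |Ep G p| ≤ c * R ^ (-(1 / 4) : ℝ)}} := rfl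

theorem A9DD_memW {Γ : Type} {d : ℕ} [Group Γ] [MulAction Γ (V d)] {K : Set (V d)} {k : ℝ} {B : ℕ → ℕ → ℝ} {G : V d → V d →L[ℝ] V d} (h11 : ADMD_stmt) (hK : FdK Γ K) (hc : Cls Γ K k B G)
    (r0 R : ℝ) {v : YS Γ d → ℂ} (hm : Measurable v) (hb : ∃ b : ℝ, ∀ y, ‖v y‖ ≤ b) (hs : ∃ S : Finset Γ, ∀ y : YS Γ d, v y ≠ 0 → y.1 ∈ S) : MemLp v 2 (mW Γ G r0 R) := by
  classical
  obtain ⟨-, -, hmeas, hlin, hwin, -⟩ := h11 d Γ K k B G hK hc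
  obtain ⟨hGW, -, hfin⟩ := hwin r0 2 R
  obtain ⟨b, hb⟩ := hb
  obtain ⟨S, hS⟩ := hs
  rw [memLp_two_iff_integrable_sq_norm hm.aestronglyMeasurable]
  refine ⟨(hm.norm.pow_const 2).aestronglyMeasurable, ?_⟩
  rw [hasFiniteIntegral_iff_enorm]
  set Fn : YS Γ d → ℝ≥0∞ := (GW Γ G r0 2 R).indicator (fun y => ‖‖v y‖ ^ 2‖ₑ) with hFn
  have e1 : ∫⁻ y, ‖‖v y‖ ^ 2‖ₑ ∂mW Γ G r0 R = ∫⁻ y, Fn y ∂mY Γ d := by
    rw [mW, hFn, lintegral_indicator hGW]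
  have hm2 : Measurable Fn := ((hm.norm.pow_const 2).enorm).indicator hGW
  rw [e1, hlin _ hm2]
  have key : ∀ z : YS Γ d, z.1 ∉ S → Fn z = 0 := by
    intro z hz
    have h0 : v z = 0 := by
      by_contra hne
      exact hz (hS _ hne)
    rw [hFn, Set.indicator_apply]
    split_ifs
    · rw [h0]; simp
    · rfl
  have e2 : ∀ γ ∉ S, ∫⁻ p : P d, Fn (γ, p) = 0 := by
    intro γ hγ
    calc ∫⁻ p : P d, Fn (γ, p) = ∫⁻ _p : P d, 0 := lintegral_congr (fun p => key _ hγ)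
      _ = 0 := lintegral_zero
  rw [tsum_eq_sum e2]
  refine ENNReal.sum_lt_top.2 fun γ _ => ?_
  set W : Set (P d) := {p : P d | ‖p.1‖ ≤ r0 ∧ |Ep G p| ≤ 2 * R ^ (-(1 / 4) : ℝ)} with hW
  have hWm : MeasurableSet W := by
    have hmk := @measurable_prodMk_left Γ (P d) ⊤ inferInstance (1 : Γ)
    exact hmk hGW
  have key2 : ∀ z : YS Γ d, Fn z ≤ W.indicator (fun _ => ENNReal.ofReal (b ^ 2)) z.2 := by
    intro z
    by_cases hp : z.2 ∈ W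
    · have hp2 : z ∈ GW Γ G r0 2 R := hp
      rw [hFn, Set.indicator_of_mem hp, Set.indicator_of_mem hp2]
      rw [Real.enorm_eq_ofReal (by positivity)]
      exact ENNReal.ofReal_le_ofReal (pow_le_pow_left₀ (norm_nonneg _) (hb _) 2)
    · have hp2 : z ∉ GW Γ G r0 2 R := hp
      rw [hFn, Set.indicator_of_notMem hp, Set.indicator_of_notMem hp2]
  calc ∫⁻ p : P d, Fn (γ, p) ≤ ∫⁻ p : P d, W.indicator (fun _ => ENNReal.ofReal (b ^ 2)) p := lintegral_mono (fun p => key2 (γ, p))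
    _ = ENNReal.ofReal (b ^ 2) * volume W := by rw [lintegral_indicator hWm, setLIntegral_const]
    _ < ⊤ := ENNReal.mul_lt_top ENNReal.ofReal_lt_top hfin

theorem A9DD_memFP {Γ : Type} {d : ℕ} [Group Γ] [MulAction Γ (V d)] {K : Set (V d)} {k : ℝ} {B : ℕ → ℕ → ℝ} {G : V d → V d →L[ℝ] V d} (h11 : ADMD_stmt) (hK : FdK Γ K) (hc : Cls Γ K k B G)
    (r0 R : ℝ) {v : YS Γ d → ℂ} (hv : FP (⊥ : Subgroup Γ) univ v) : MemLp v 2 (mW Γ G r0 R) := by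
  obtain ⟨S, hS⟩ := hv.supp
  exact A9DD_memW h11 hK hc r0 R hv.meas hv.bdd ⟨S, fun y hy => hS y (mem_univ _) hy⟩

theorem A9DD_nP {Γ : Type} {d : ℕ} [Group Γ] [MulAction Γ (V d)] (G : V d → V d →L[ℝ] V d) (r0 R : ℝ) (v : YS Γ d → ℂ) : nP G r0 univ 2 R v = ∫ y, ‖v y‖ ^ 2 ∂mW Γ G r0 R := by
  have : DT d (univ : Set Γ) ∩ GW Γ G r0 2 R = GW Γ G r0 2 R := by
    ext y
    simp [DT]
  rw [nP, this, mW]

/-- functions on `V d` -/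
theorem A9DD_memFH {Γ : Type} {d : ℕ} [Group Γ] [MulAction Γ (V d)] {G : V d → V d →L[ℝ] V d} (hfin : ∀ S : Set (V d), IsCompact S → mv G S < ⊤) {φ : V d → ℂ}
    (h : FH (⊥ : Subgroup Γ) univ φ) : MemLp φ 2 (mv G) ∧ Integrable φ (mv G) := by
  obtain ⟨b, hb⟩ := h.supp
  have hcs : HasCompactSupport φ := by
    refine HasCompactSupport.intro (isCompact_closedBall (0 : V d) b) ?_
    intro x hx
    by_contra hne
    apply hx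
    rw [mem_closedBall_zero_iff]
    exact hb x (mem_univ _) hne
  have : IsFiniteMeasureOnCompacts (mv G) := ⟨fun S hS => hfin S hS⟩
  exact ⟨h.cont.memLp_of_hasCompactSupport hcs, h.cont.integrable_of_hasCompactSupport hcs⟩

theorem A9DD_nn {d : ℕ} (G : V d → V d →L[ℝ] V d) (φ : V d → ℂ) : nn G univ φ = ∫ z, ‖φ z‖ ^ 2 ∂mv G := by
  rw [nn, Measure.restrict_univ]

/-- rows of kernels -/
theorem A9DD_row {Γ : Type} {d : ℕ} [Group Γ] {L : YS Γ d → YS Γ d → ℂ} (hL : KY L) (y : YS Γ d) : FP (⊥ : Subgroup Γ) univ (fun x => conj (L y x)) := by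
  classical
  obtain ⟨b, hb⟩ := hL.bdd
  obtain ⟨S, hS⟩ := hL.range
  refine ⟨?_, ⟨b, fun x => by rw [RCLike.norm_conj]; exact hb y x⟩, ?_, ⟨S.image (fun s => y.1 * s), fun x _ hx => ?_⟩⟩
  · have h1 : Measurable (fun x : YS Γ d => L y x) := hL.meas.comp measurable_prodMk_left
    exact Complex.continuous_conj.measurable.comp h1
  · intro γ hγ x
    rw [Subgroup.mem_bot.1 hγ, one_smul]
  · have hx' : L y x ≠ 0 := fun h => hx (by rw [h, map_zero])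
    exact Finset.mem_image.2 ⟨y.1⁻¹ * x.1, hS y x hx', by group⟩

theorem A9DD_col {Γ : Type} {d : ℕ} [Group Γ] {L : YS Γ d → YS Γ d → ℂ} (hL : KY L) (y' : YS Γ d) : FP (⊥ : Subgroup Γ) univ (fun x => L x y') := by
  classical
  obtain ⟨b, hb⟩ := hL.bdd
  obtain ⟨S, hS⟩ := hL.range
  refine ⟨hL.meas.comp measurable_prodMk_right, ⟨b, fun x => hb x y'⟩, ?_, ⟨S.image (fun s => y'.1 * s⁻¹), fun x _ hx => ?_⟩⟩
  · intro γ hγ x
    rw [Subgroup.mem_bot.1 hγ, one_smul]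
  · exact Finset.mem_image.2 ⟨x.1⁻¹ * y'.1, hS x y' hx, by group⟩

theorem A9DD_DT {Γ : Type} {d : ℕ} (S : Set (YS Γ d)) : DT d (univ : Set Γ) ∩ S = S := by
  ext y
  simp [DT]

/-- the comparison for one pair of indices -/
theorem A9DD_core {Γ : Type} {d : ℕ} [Group Γ] [MulAction Γ (V d)] {K : Set (V d)} {k : ℝ} {B : ℕ → ℕ → ℝ} {G : V d → V d →L[ℝ] V d} (h11 : ADMD_stmt) (h12 : AMVI_stmt) (hK : FdK Γ K) (hc : Cls Γ K k B G)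
    (r0 R : ℝ) (us1 usm : YS Γ d → YS Γ d → ℂ) (hus : KY us1) (husm : KY usm) (y y' : YS Γ d) (hsupp : ∀ x, us1 x y' ≠ 0 → x ∈ GW Γ G r0 2 R)
    (q j : YS Γ d → ℂ) (hq : FP (⊥ : Subgroup Γ) univ q) (hj : FP (⊥ : Subgroup Γ) univ j) (g S L : V d → ℂ) (hg : FH (⊥ : Subgroup Γ) univ g) (hS : FH (⊥ : Subgroup Γ) univ S) (hL : FH (⊥ : Subgroup Γ) univ L)
    (hdual : ∫ x in DT d (univ : Set Γ) ∩ GW Γ G r0 2 R, j x * conj (q x) ∂mY Γ d = ∫ z in univ, g z * conj (S z) ∂mv G)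
    (N2 ε1 ε2 Nq N ε3 M N1 : ℝ)
    (k1 : nP G r0 univ 2 R (fun x => us1 x y') ≤ N2) (k2 : nP G r0 univ 2 R (fun x => conj (usm y x) - q x) ≤ ε1) (k3 : nP G r0 univ 2 R (fun x => us1 x y' - j x) ≤ ε2)
    (k4 : nP G r0 univ 2 R q ≤ Nq) (k5 : nn G univ g ≤ N) (k6 : nn G univ (fun z => S z - L z) ≤ ε3) (k7 : ∀ z, ‖L z‖ ≤ M) (k8 : ∫ z, ‖g z‖ ∂mv G ≤ N1) (hM : 0 ≤ M) :
    ‖cmZ (mY Γ d) usm us1 y y'‖ ≤ Real.sqrt N2 * Real.sqrt ε1 + Real.sqrt ε2 * Real.sqrt Nq + (Real.sqrt N * Real.sqrt ε3 + M * N1) := by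
  obtain ⟨-, -, -, -, hfin, -⟩ := h12 d Γ K k B G hK hc
  have hw : MemLp (fun x => us1 x y') 2 (mW Γ G r0 R) := A9DD_memFP h11 hK hc r0 R (A9DD_col hus y')
  have hv : MemLp (fun x => conj (usm y x)) 2 (mW Γ G r0 R) := A9DD_memFP h11 hK hc r0 R (A9DD_row husm y)
  have hq' := A9DD_memFP h11 hK hc r0 R hq
  have hj' := A9DD_memFP h11 hK hc r0 R hj
  have e1 : cmZ (mY Γ d) usm us1 y y' = ∫ x, us1 x y' * conj (conj (usm y x)) ∂mW Γ G r0 R := by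
    rw [cmZ, mW, setIntegral_eq_integral_of_forall_compl_eq_zero]
    · apply integral_congr_ae
      filter_upwards with x
      rw [Complex.conj_conj, mul_comm]
    · intro x hx
      have h0 : us1 x y' = 0 := by
        by_contra hne
        exact hx (hsupp x hne)
      rw [h0, zero_mul]
  rw [e1]
  refine (A9DD_abs hw hv hq' hj').trans ?_
  have hdual' : ∫ x, j x * conj (q x) ∂mW Γ G r0 R = ∫ z, g z * conj (S z) ∂mv G := by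
    rw [A9DD_DT, Measure.restrict_univ] at hdual
    exact hdual
  rw [hdual']
  obtain ⟨g2, g1⟩ := A9DD_memFH hfin hg
  have hlast := A9DD_abs2 g2 (A9DD_memFH hfin hS).1 (A9DD_memFH hfin hL).1 g1 k7
  rw [A9DD_nP] at k1 k2 k3 k4
  rw [A9DD_nn] at k5 k6
  have t1 := mul_le_mul (Real.sqrt_le_sqrt k1) (Real.sqrt_le_sqrt k2) (Real.sqrt_nonneg _) (Real.sqrt_nonneg _)
  have t2 := mul_le_mul (Real.sqrt_le_sqrt k3) (Real.sqrt_le_sqrt k4) (Real.sqrt_nonneg _) (Real.sqrt_nonneg _)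
  have t3 := mul_le_mul (Real.sqrt_le_sqrt k5) (Real.sqrt_le_sqrt k6) (Real.sqrt_nonneg _) (Real.sqrt_nonneg _)
  have t4 := mul_le_mul_of_nonneg_left k8 hM
  exact add_le_add (add_le_add t1 t2) (hlast.trans (add_le_add t3 t4))

/-! ## Numbers -/

theorem A9DD_sqrt {R : ℝ} (hR : 0 ≤ R) (x : ℝ) : Real.sqrt (R ^ x) = R ^ (x / 2) := by
  rw [Real.sqrt_eq_rpow, ← Real.rpow_mul hR]
  congr 1
  ring

theorem A9DD_pow {c R e : ℝ} {n : ℕ} (hc : 1 ≤ c) (hR : 0 < R) (hn : (n : ℝ) ≤ e * Real.log R) : c ^ n ≤ R ^ (e * Real.log c) := by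
  have hc0 : 0 < c := by linarith
  have hl : 0 ≤ Real.log c := Real.log_nonneg hc
  rw [Real.rpow_def_of_pos hR, ← Real.rpow_natCast, Real.rpow_def_of_pos hc0]
  apply Real.exp_le_exp.2
  have := mul_le_mul_of_nonneg_left hn hl
  calc Real.log c * (n : ℝ) ≤ Real.log c * (e * Real.log R) := this
    _ = _ := by ring

theorem A9DD_num {d : ℕ} {R z z2 Cs Ci Co Cv ζ2 α : ℝ} (hR : 1 ≤ R) (hs : Cs * z2 ≤ 1 / 16) (hi : Ci * ζ2 ≤ 1 / 16) (ho : Co * ζ2 ≤ 1 / 16) (hv : 2 * Cv ≤ R) (hv0 : 0 ≤ Cv) :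
    Real.sqrt (R ^ ((d : ℝ) + Cs * z2)) * Real.sqrt (R ^ ((d : ℝ) - 1 / 2 + Ci * ζ2)) + Real.sqrt (R ^ (-2 : ℝ) * Cv) * Real.sqrt (2 * R ^ ((d : ℝ) + Co * ζ2)) +
      (Real.sqrt ((R / (2 * Real.pi)) ^ d) * Real.sqrt (R ^ ((d : ℝ) - 1 / 2 + Co * ζ2)) + Co * R ^ (3 * (d : ℝ) / 4) * α * R ^ ((d : ℝ) / 4 + z)) ≤
    Co * R ^ ((d : ℝ) + z) * α + 3 * R ^ ((d : ℝ) - 3 / 16) := by
  have hR0 : 0 < R := by linarith
  have hd0 : (0 : ℝ) ≤ d := Nat.cast_nonneg d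
  have t1 : Real.sqrt (R ^ ((d : ℝ) + Cs * z2)) * Real.sqrt (R ^ ((d : ℝ) - 1 / 2 + Ci * ζ2)) ≤ R ^ ((d : ℝ) - 3 / 16) := by
    rw [A9DD_sqrt hR0.le, A9DD_sqrt hR0.le, ← Real.rpow_add hR0]
    exact Real.rpow_le_rpow_of_exponent_le hR (by linarith)
  have t2 : Real.sqrt (R ^ (-2 : ℝ) * Cv) * Real.sqrt (2 * R ^ ((d : ℝ) + Co * ζ2)) ≤ R ^ ((d : ℝ) - 3 / 16) := by
    rw [← Real.sqrt_mul (mul_nonneg (Real.rpow_nonneg hR0.le _) hv0)]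
    have e1 : R ^ (-2 : ℝ) * Cv * (2 * R ^ ((d : ℝ) + Co * ζ2)) ≤ R ^ (2 * ((d : ℝ) - 3 / 16)) := by
      calc R ^ (-2 : ℝ) * Cv * (2 * R ^ ((d : ℝ) + Co * ζ2)) = (2 * Cv) * (R ^ (-2 : ℝ) * R ^ ((d : ℝ) + Co * ζ2)) := by ring
        _ ≤ R ^ (1 : ℝ) * (R ^ (-2 : ℝ) * R ^ ((d : ℝ) + Co * ζ2)) := by
            rw [Real.rpow_one]
            exact mul_le_mul_of_nonneg_right hv (by positivity)
        _ = R ^ (1 + (-2 + ((d : ℝ) + Co * ζ2))) := by rw [← Real.rpow_add hR0, ← Real.rpow_add hR0]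
        _ ≤ R ^ (2 * ((d : ℝ) - 3 / 16)) := Real.rpow_le_rpow_of_exponent_le hR (by linarith)
    refine (Real.sqrt_le_sqrt e1).trans (le_of_eq ?_)
    rw [A9DD_sqrt hR0.le]
    congr 1
    ring
  have t3 : Real.sqrt ((R / (2 * Real.pi)) ^ d) * Real.sqrt (R ^ ((d : ℝ) - 1 / 2 + Co * ζ2)) ≤ R ^ ((d : ℝ) - 3 / 16) := by
    have e1 : (R / (2 * Real.pi)) ^ d ≤ R ^ (d : ℝ) := by
      rw [Real.rpow_natCast]
      refine pow_le_pow_left₀ (by positivity) ?_ d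
      have hpi : 1 ≤ 2 * Real.pi := by linarith [Real.pi_gt_three]
      exact div_le_self hR0.le hpi
    have e2 : Real.sqrt ((R / (2 * Real.pi)) ^ d) ≤ R ^ ((d : ℝ) / 2) := by
      rw [← A9DD_sqrt hR0.le]
      exact Real.sqrt_le_sqrt e1
    rw [A9DD_sqrt hR0.le]
    refine (mul_le_mul_of_nonneg_right e2 (Real.rpow_nonneg hR0.le _)).trans ?_
    rw [← Real.rpow_add hR0]
    exact Real.rpow_le_rpow_of_exponent_le hR (by linarith)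
  have t4 : Co * R ^ (3 * (d : ℝ) / 4) * α * R ^ ((d : ℝ) / 4 + z) = Co * R ^ ((d : ℝ) + z) * α := by
    have e1 : R ^ ((d : ℝ) + z) = R ^ (3 * (d : ℝ) / 4) * R ^ ((d : ℝ) / 4 + z) := by
      rw [← Real.rpow_add hR0]
      congr 1
      ring
    rw [e1]
    ring
  linarith

theorem A9DD_fin {d : ℕ} {R z z2 Co C ζ2 α D b : ℝ} (hR : 1 ≤ R) (hz : z ≤ z2) (hz0 : 0 ≤ z) (hC : 3 ≤ C) (ho : Co * ζ2 ≤ 1 / 16) (hb0 : 0 ≤ b)
    (hb : b ≤ Co * R ^ ((d : ℝ) + z) * α + 3 * R ^ ((d : ℝ) - 3 / 16)) (hD : α ^ 2 * D = 1) (hD0 : 0 ≤ D) (hα : R ^ (-(Co * ζ2)) ≤ α ^ 2)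
    (hbig : 2 * Co ^ 2 + 18 ≤ R ^ z2) : b ^ 2 * D ≤ R ^ (2 * (d : ℝ) + C * z2) := by
  have hR0 : 0 < R := by linarith
  have hz20 : 0 ≤ z2 := hz0.trans hz
  have hDle : D ≤ R ^ (1 / 16 : ℝ) := by
    have h1 : R ^ (-(Co * ζ2)) * D ≤ 1 := by
      rw [← hD]
      exact mul_le_mul_of_nonneg_right hα hD0
    have h2 : D ≤ R ^ (Co * ζ2) := by
      rw [Real.rpow_neg hR0.le] at h1
      have h3 : 0 < R ^ (Co * ζ2) := Real.rpow_pos_of_pos hR0 _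
      rw [inv_mul_le_iff₀ h3, mul_one] at h1
      exact h1
    exact h2.trans (Real.rpow_le_rpow_of_exponent_le hR ho)
  have h1 : b ^ 2 ≤ 2 * (Co * R ^ ((d : ℝ) + z) * α) ^ 2 + 2 * (3 * R ^ ((d : ℝ) - 3 / 16)) ^ 2 := by
    have h2 : b ^ 2 ≤ (Co * R ^ ((d : ℝ) + z) * α + 3 * R ^ ((d : ℝ) - 3 / 16)) ^ 2 := pow_le_pow_left₀ hb0 hb 2
    nlinarith [sq_nonneg (Co * R ^ ((d : ℝ) + z) * α - 3 * R ^ ((d : ℝ) - 3 / 16))]
  have e1 : (R ^ ((d : ℝ) + z)) ^ 2 = R ^ (2 * (d : ℝ) + 2 * z) := by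
    rw [← Real.rpow_natCast, ← Real.rpow_mul hR0.le]
    congr 1
    push_cast
    ring
  have e2 : (R ^ ((d : ℝ) - 3 / 16)) ^ 2 = R ^ (2 * (d : ℝ) - 3 / 8) := by
    rw [← Real.rpow_natCast, ← Real.rpow_mul hR0.le]
    congr 1
    push_cast
    ring
  have h2 : b ^ 2 * D ≤ 2 * Co ^ 2 * R ^ (2 * (d : ℝ) + 2 * z) * (α ^ 2 * D) + 18 * (R ^ (2 * (d : ℝ) - 3 / 8) * D) := by
    calc b ^ 2 * D ≤ (2 * (Co * R ^ ((d : ℝ) + z) * α) ^ 2 + 2 * (3 * R ^ ((d : ℝ) - 3 / 16)) ^ 2) * D := mul_le_mul_of_nonneg_right h1 hD0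
      _ = _ := by rw [mul_pow, mul_pow, mul_pow, e1, e2]; ring
  have h3 : R ^ (2 * (d : ℝ) - 3 / 8) * D ≤ R ^ (2 * (d : ℝ) + 2 * z2) := by
    calc R ^ (2 * (d : ℝ) - 3 / 8) * D ≤ R ^ (2 * (d : ℝ) - 3 / 8) * R ^ (1 / 16 : ℝ) := mul_le_mul_of_nonneg_left hDle (Real.rpow_nonneg hR0.le _)
      _ = R ^ (2 * (d : ℝ) - 3 / 8 + 1 / 16) := by rw [← Real.rpow_add hR0]
      _ ≤ _ := Real.rpow_le_rpow_of_exponent_le hR (by linarith)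
  have h4 : R ^ (2 * (d : ℝ) + 2 * z) ≤ R ^ (2 * (d : ℝ) + 2 * z2) := Real.rpow_le_rpow_of_exponent_le hR (by linarith)
  rw [hD, mul_one] at h2
  calc b ^ 2 * D ≤ 2 * Co ^ 2 * R ^ (2 * (d : ℝ) + 2 * z2) + 18 * R ^ (2 * (d : ℝ) + 2 * z2) := by
        have h5 : 2 * Co ^ 2 * R ^ (2 * (d : ℝ) + 2 * z) ≤ 2 * Co ^ 2 * R ^ (2 * (d : ℝ) + 2 * z2) := mul_le_mul_of_nonneg_left h4 (by positivity)
        linarith
    _ = (2 * Co ^ 2 + 18) * R ^ (2 * (d : ℝ) + 2 * z2) := by ring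
    _ ≤ R ^ z2 * R ^ (2 * (d : ℝ) + 2 * z2) := mul_le_mul_of_nonneg_right hbig (Real.rpow_nonneg hR0.le _)
    _ = R ^ (z2 + (2 * (d : ℝ) + 2 * z2)) := by rw [← Real.rpow_add hR0]
    _ ≤ _ := Real.rpow_le_rpow_of_exponent_le hR (by nlinarith)

theorem A9DD_adm {C C' : ℝ} {A : Par} (h : Adm C A) (hC : C' ≤ C) (h1 : 1 ≤ C) : Adm C' A := by
  have hz1 : 0 < A.z1 := lt_of_lt_of_le (mul_pos (by linarith) h.z) h.z1
  have hz2 : 0 < A.z2 := lt_of_lt_of_le (mul_pos (by linarith) hz1) h.z2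
  exact ⟨h.e2, (mul_le_mul_of_nonneg_right hC h.e2.le).trans h.e2', h.z, (mul_le_mul_of_nonneg_right hC h.z.le).trans h.z1,
    (mul_le_mul_of_nonneg_right hC hz1.le).trans h.z2, (mul_le_mul_of_nonneg_right hC hz2.le).trans h.up⟩

theorem A9DD_wj {Γ : Type} {d : ℕ} [Group Γ] [MulAction Γ (V d)] {K : Set (V d)} {k : ℝ} {B : ℕ → ℕ → ℝ} {G : V d → V d →L[ℝ] V d} (h11 : ADMD_stmt) (hK : FdK Γ K) (hc : Cls Γ K k B G)
    (r0 R Cv : ℝ) (hR : 0 < R) (f : YS Γ d → ℂ) (y' : YS Γ d) (Sg : Set Γ) (hsmall : ∀ x ∈ GW Γ G r0 2 R, ‖f x‖ ≤ R ^ (-1 : ℝ)) (hsupp : ∀ x ∈ GW Γ G r0 2 R, f x ≠ 0 → y'.1⁻¹ * x.1 ∈ Sg)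
    (hvol : mY Γ d {x | x ∈ GW Γ G r0 2 R ∧ y'.1⁻¹ * x.1 ∈ Sg} ≤ ENNReal.ofReal Cv) (hCv : 0 ≤ Cv) : nP G r0 univ 2 R f ≤ R ^ (-2 : ℝ) * Cv := by
  classical
  obtain ⟨-, -, -, -, hwin, -⟩ := h11 d Γ K k B G hK hc
  obtain ⟨hGW, -, -⟩ := hwin r0 2 R
  rw [A9DD_nP]
  set A' : Set (YS Γ d) := {x | x ∈ GW Γ G r0 2 R ∧ y'.1⁻¹ * x.1 ∈ Sg} with hA'
  have hA'm : MeasurableSet A' := by
    have h1 : MeasurableSet {x : YS Γ d | y'.1⁻¹ * x.1 ∈ Sg} := by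
      have hf := @measurable_fst Γ (P d) ⊤ inferInstance
      exact hf (MeasurableSpace.measurableSet_top (s := {γ : Γ | y'.1⁻¹ * γ ∈ Sg}))
    exact hGW.inter h1
  have hlt : mW Γ G r0 R A' ≤ ENNReal.ofReal Cv := (Measure.restrict_apply_le _ _).trans hvol
  have hint : Integrable (A'.indicator fun _ => R ^ (-2 : ℝ)) (mW Γ G r0 R) := by
    rw [integrable_indicator_iff hA'm]
    exact integrableOn_const (ne_of_lt (lt_of_le_of_lt hlt ENNReal.ofReal_lt_top))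
  have hle : (fun x => ‖f x‖ ^ 2) ≤ᵐ[mW Γ G r0 R] A'.indicator fun _ => R ^ (-2 : ℝ) := by
    refine ae_restrict_of_forall_mem hGW ?_
    intro x hx
    by_cases h0 : f x = 0
    · show ‖f x‖ ^ 2 ≤ A'.indicator (fun _ => R ^ (-2 : ℝ)) x
      rw [h0, norm_zero]
      simp only [ne_eq, OfNat.ofNat_ne_zero, not_false_eq_true, zero_pow]
      exact Set.indicator_nonneg (fun _ _ => Real.rpow_nonneg hR.le _) x
    · have hxA : x ∈ A' := ⟨hx, hsupp x hx h0⟩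
      show ‖f x‖ ^ 2 ≤ A'.indicator (fun _ => R ^ (-2 : ℝ)) x
      rw [Set.indicator_of_mem hxA]
      have h2 := pow_le_pow_left₀ (norm_nonneg _) (hsmall x hx) 2
      have h3 : (R ^ (-1 : ℝ)) ^ 2 = R ^ (-2 : ℝ) := by
        rw [← Real.rpow_natCast, ← Real.rpow_mul hR.le]
        norm_num
      rwa [h3] at h2
  refine (integral_mono_of_nonneg (Eventually.of_forall fun x => by positivity) hint hle).trans ?_
  rw [integral_indicator_const _ hA'm, smul_eq_mul, mul_comm]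
  refine mul_le_mul_of_nonneg_left ?_ (Real.rpow_nonneg hR.le _)
  exact ENNReal.toReal_le_of_le_ofReal hCv hlt

theorem A9DD_w2 {Γ : Type} {d : ℕ} [Group Γ] [MulAction Γ (V d)] (G : V d → V d →L[ℝ] V d) (r0 R N2 : ℝ) (f : YS Γ d → ℂ) (hf : Measurable f) (hN : 0 ≤ N2)
    (h : ∫⁻ x, ‖f x‖ₑ ^ 2 ∂mY Γ d ≤ ENNReal.ofReal N2) : nP G r0 univ 2 R f ≤ N2 := by
  rw [A9DD_nP, integral_eq_lintegral_of_nonneg_ae (Eventually.of_forall fun x => by positivity) (hf.norm.pow_const 2).aestronglyMeasurable]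
  refine ENNReal.toReal_le_of_le_ofReal hN (le_trans ?_ h)
  have e1 : ∀ x, ENNReal.ofReal (‖f x‖ ^ 2) = ‖f x‖ₑ ^ 2 := fun x => by
    rw [ENNReal.ofReal_pow (norm_nonneg _), ofReal_norm]
  simp only [e1]
  exact lintegral_mono' Measure.restrict_le_self le_rfl

theorem A9DD_cover {Γ : Type} {d : ℕ} [Group Γ] [MulAction Γ (V d)] {r0 : ℝ} {χ : V d → ℝ} (hPU : PU Γ r0 χ) (Φ : ℝ → P d → P d) (t : ℝ) (p : P d) : ∃ κ : Γ, ‖(fch Φ κ t p).1‖ ≤ r0 + 1 := by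
  obtain ⟨γ, hγ⟩ := hPU.cover (Φ t p).1
  refine ⟨γ⁻¹, ?_⟩
  have : (fch Φ γ⁻¹ t p).1 = γ • (Φ t p).1 := by
    simp only [fch, inv_inv]
    rfl
  rw [this]
  linarith

theorem A9DD_GW {Γ : Type} {d : ℕ} [Group Γ] [MulAction Γ (V d)] {G : V d → V d →L[ℝ] V d} {r0 c c' R : ℝ} (hc : c ≤ c') (hR : 0 ≤ R) {y : YS Γ d} (h : y ∈ GW Γ G r0 c R) : y ∈ GW Γ G r0 c' R :=
  ⟨h.1, h.2.trans (mul_le_mul_of_nonneg_right hc (Real.rpow_nonneg hR _))⟩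

theorem A9DD_Gp {Γ : Type} {d : ℕ} [Group Γ] [MulAction Γ (V d)] {K : Set (V d)} (hK : FdK Γ K) {G : V d → V d →L[ℝ] V d} {χ : V d → ℝ} {ch : ℝ → ℝ} {ζ R r0 : ℝ} (y' : YS Γ d)
    (hcont : ∀ γ : Γ, Continuous fun x : P d × V d => Gp G χ ch ζ R ((γ, x.1) : YS Γ d) x.2)
    (hsupp : ∀ z : V d, Gp G χ ch ζ R y' z ≠ 0 → ‖y'.1⁻¹ • z‖ ≤ r0) : FH (⊥ : Subgroup Γ) univ (Gp G χ ch ζ R y') := by
  refine ⟨?_, ?_, ?_⟩
  · exact (hcont y'.1).comp (continuous_const.prodMk continuous_id : Continuous fun z : V d => ((y'.2 : P d), z))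
  · intro γ hγ z
    rw [Subgroup.mem_bot.1 hγ, one_smul]
  · have hcomp : IsCompact ((fun w : V d => y'.1 • w) '' Metric.closedBall (0 : V d) r0) :=
      (isCompact_closedBall (0 : V d) r0).image (hK.smooth y'.1).continuous
    obtain ⟨b, hb⟩ := hcomp.isBounded.exists_norm_le
    refine ⟨b, fun z _ hz => hb z ⟨y'.1⁻¹ • z, ?_, ?_⟩⟩
    · rw [mem_closedBall_zero_iff]; exact hsupp z hz
    · exact smul_inv_smul y'.1 z

theorem A9DD_proof (h1 : ALIN_stmt) (h2 : ALON_stmt) (h3 : ALRC_stmt) (h4 : AULD_stmt) (h5 : AUSD_stmt) (h6 : AUMD_stmt) (h7 : AQSD_stmt) (h8 : AFRD_stmt) (h9 : AFMD_stmt) (h10 : AVOL_stmt)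
    (h11 : ADMD_stmt) (h12 : AMVI_stmt) (h13 : AQAD_stmt) : A9DD_stmt := by
  intro d Γ _ _ K k B r0 χ hK hPU
  obtain ⟨Ci, hCi, hI⟩ := h1 d Γ K k B r0 χ hK hPU
  obtain ⟨Co, C1, hCo, hC1, hO⟩ := h2 d Γ K k B r0 χ hK hPU
  obtain ⟨-, Cr, hCr, hRC⟩ := h3 d Γ K k B r0 hK
  obtain ⟨Cl, hCl, hL⟩ := h4 d Γ K k B r0 χ hK hPU
  obtain ⟨Cs, hCs, hS⟩ := h5 d Γ K k B r0 χ hK hPU
  obtain ⟨Cm, hCm, hM⟩ := h6 d Γ K k B r0 χ hK hPU
  obtain ⟨Cf, hCf, hF⟩ := h8 d Γ K k B r0 hK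
  obtain ⟨Cg, hCg, hG⟩ := h9 d Γ K k B r0 χ hK hPU
  obtain ⟨Cv, hCv, hV⟩ := h10 d Γ K k B r0 Cl hK
  have hl1 : 0 ≤ Real.log C1 := Real.log_nonneg hC1
  have hlr : 0 ≤ Real.log Cr := Real.log_nonneg hCr
  set X : ℝ := 16 * (Ci + Co) with hX
  set Y : ℝ := 16 * (Ci + Co + Cs + Cm + Cl + Cg) * (1 + Real.log C1 + Real.log Cr) with hY
  clear_value X Y
  have hX32 : 32 ≤ X := by rw [hX]; linarith
  have hsum : 6 ≤ Ci + Co + Cs + Cm + Cl + Cg := by linarith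
  have hfac : 1 ≤ 1 + Real.log C1 + Real.log Cr := by linarith
  have hY1 : 16 * (Ci + Co + Cs + Cm + Cl + Cg) ≤ Y := by
    rw [hY]; exact le_mul_of_one_le_right (by linarith) hfac
  have hYX : Y ≤ X * Y := le_mul_of_one_le_left (by linarith) (by linarith)
  have hXY : X ≤ X * Y := le_mul_of_one_le_right (by linarith) (by linarith)
  set C : ℝ := X * Y with hC
  clear_value C
  have hC96 : 96 ≤ C := by linarith
  refine ⟨C, by linarith, ?_⟩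
  intro ch A hch hAdm
  have hC1' : 1 ≤ C := by linarith
  have he2 : 0 < A.e2 := hAdm.e2
  have hz : 0 < A.z := hAdm.z
  have hz1 : 0 < A.z1 := lt_of_lt_of_le (mul_pos (by linarith) hz) hAdm.z1
  have hz2 : 0 < A.z2 := lt_of_lt_of_le (mul_pos (by linarith) hz1) hAdm.z2
  have hCz2 : C * A.z2 ≤ 1 := hAdm.up
  have hz2le : A.z2 ≤ 1 / 96 := by
    have := mul_le_mul_of_nonneg_right hC96 hz2.le
    linarith
  have hz1z2 : A.z1 ≤ A.z2 := by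
    have := mul_le_mul_of_nonneg_right hC1' hz1.le
    linarith [hAdm.z2]
  have hzz1 : A.z ≤ A.z1 := by
    have := mul_le_mul_of_nonneg_right hC1' hz.le
    linarith [hAdm.z1]
  have hCz1 : C * A.z1 ≤ A.z2 := hAdm.z2
  set ζ2 : ℝ := 1 / X with hζ2
  clear_value ζ2
  have hX0 : 0 < X := by linarith
  have hiζ : Ci * ζ2 ≤ 1 / 16 := by
    rw [hζ2, mul_one_div, div_le_div_iff₀ hX0 (by norm_num)]
    linarith
  have hoζ : Co * ζ2 ≤ 1 / 16 := by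
    rw [hζ2, mul_one_div, div_le_div_iff₀ hX0 (by norm_num)]
    linarith
  have hz1ζ : A.z1 ≤ ζ2 := by
    rw [hζ2, le_div_iff₀ hX0]
    have := mul_le_mul_of_nonneg_right hXY hz1.le
    linarith
  have hYe : X * (Y * A.e2) ≤ 1 := by
    rw [← mul_assoc, ← hC]; exact hAdm.e2'
  have hYe2 : Y * A.e2 ≤ ζ2 := by
    rw [hζ2, le_div_iff₀ hX0]; linarith
  have hie : Ci * A.e2 ≤ ζ2 := (mul_le_mul_of_nonneg_right (by linarith) he2.le).trans hYe2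
  set e : ℝ := A.e2 * (Real.log C1 + 1) with he
  clear_value e
  have hoe : Co * e ≤ ζ2 := by
    have h0 : Co * (Real.log C1 + 1) ≤ Y := by
      rw [hY]
      have : Co * (Real.log C1 + 1) ≤ 16 * (Ci + Co + Cs + Cm + Cl + Cg) * (1 + Real.log C1 + Real.log Cr) :=
        mul_le_mul (by linarith) (by linarith) (by linarith) (by linarith)
      exact this
    have h0' := mul_le_mul_of_nonneg_right h0 he2.le
    calc Co * e = Co * (Real.log C1 + 1) * A.e2 := by rw [he]; ring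
      _ ≤ _ := h0'.trans hYe2
  have he0 : 0 ≤ e := by
    rw [he]; exact mul_nonneg he2.le (by linarith)
  have hsz : Cs * A.z2 ≤ 1 / 16 := by
    have h0 : 16 * Cs ≤ C := by linarith
    have := mul_le_mul_of_nonneg_right h0 hz2.le
    linarith
  have hlre : A.e2 * Real.log Cr ≤ 1 / 16 := by
    have h0 : 16 * Real.log Cr ≤ Y := by
      rw [hY]
      have : 16 * Real.log Cr ≤ 16 * (Ci + Co + Cs + Cm + Cl + Cg) * (1 + Real.log C1 + Real.log Cr) :=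
        mul_le_mul (by linarith) (by linarith) hlr (by linarith)
      exact this
    have h1' := mul_le_mul_of_nonneg_right h0 he2.le
    have h2' : Y * A.e2 ≤ 1 := (mul_le_mul_of_nonneg_right hYX he2.le).trans hAdm.e2'
    linarith
  have hgz : Cg * A.z1 ≤ 1 / 4 := by
    have h0 : 4 * Cg ≤ C := by linarith
    have := mul_le_mul_of_nonneg_right h0 hz1.le
    linarith
  have hlz : Cl * A.z1 ≤ A.z2 := (mul_le_mul_of_nonneg_right (by linarith) hz1.le).trans hCz1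
  obtain ⟨Ri, hRi, hI1⟩ := hI ch A ζ2 hch (A9DD_adm hAdm (by linarith) hC1') hz1ζ hie (by linarith)
  obtain ⟨Ro, hRo, hO1⟩ := hO ch e A.z A.z1 ζ2 hch he0 hz hzz1 hz1ζ hoe (by linarith)
  obtain ⟨Rl, hRl, hL1⟩ := hL ch A.z A.z1 1 hch hz hzz1 (by linarith)
  obtain ⟨Rs, hRs, hS1⟩ := hS ch A hch (A9DD_adm hAdm (by linarith) hC1')
  obtain ⟨Rm, hRm, hM1⟩ := hM ch A hch (A9DD_adm hAdm (by linarith) hC1')
  obtain ⟨Rg, hRg, hG1⟩ := hG ch 0 A.z A.z1 1 hch hz hzz1 (by linarith)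
  obtain ⟨Rq, hRq, hQ1⟩ := h7 d Γ K k B r0 χ ch A.z hK hPU hch hz (by linarith)
  obtain ⟨Ra, hRa, hA1⟩ := h13 d Γ K k B r0 χ ch A.z hK hPU hch hz (by linarith)
  obtain ⟨Rb, hRb⟩ : ∃ Rb : ℝ, ∀ R ≥ Rb, 1 ≤ A.e2 * Real.log R ∧ C1 ^ 3 ≤ R ^ A.e2 ∧ Cr ≤ R ^ (3 / 8 : ℝ) ∧ 2 * Cv ≤ R ∧ 2 * Co ^ 2 + 18 ≤ R ^ A.z2 := by
    apply eventually_atTop.1
    have a1 : ∀ᶠ R : ℝ in atTop, 1 / A.e2 ≤ Real.log R := Real.tendsto_log_atTop.eventually_ge_atTop _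
    have a2 : ∀ᶠ R : ℝ in atTop, C1 ^ 3 ≤ R ^ A.e2 := (tendsto_rpow_atTop he2).eventually_ge_atTop _
    have a3 : ∀ᶠ R : ℝ in atTop, Cr ≤ R ^ (3 / 8 : ℝ) := (tendsto_rpow_atTop (by norm_num)).eventually_ge_atTop _
    have a4 : ∀ᶠ R : ℝ in atTop, 2 * Cv ≤ R := eventually_ge_atTop _
    have a5 : ∀ᶠ R : ℝ in atTop, 2 * Co ^ 2 + 18 ≤ R ^ A.z2 := (tendsto_rpow_atTop hz2).eventually_ge_atTop _
    filter_upwards [a1, a2, a3, a4, a5] with R b1 b2 b3 b4 b5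
    refine ⟨?_, b2, b3, b4, b5⟩
    rw [div_le_iff₀ he2] at b1
    linarith
  refine ⟨Ri + Ro + Rl + Rs + Rm + Rg + Rq + Ra + |Rb| + Cf + 16, by linarith [abs_nonneg Rb], ?_⟩
  intro R G Φ y y' hR hOKA hy
  have hab := abs_nonneg Rb
  have hR1 : 1 ≤ R := by linarith
  have hR0 : 0 < R := by linarith
  obtain ⟨g1, g2, g3, g4, g5⟩ := hRb R (by linarith [le_abs_self Rb])
  have hc : Cls Γ K k B G := hOKA.cls
  have hRes0 : 0 ≤ R ^ (2 * (d : ℝ) + C * A.z2) := Real.rpow_nonneg hR0.le _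
  by_cases hb : ub G Φ r0 χ ch A R y y' = 0
  · rw [hb, norm_zero]
    simpa using hRes0
  obtain ⟨m1, m2, m3, m4, -, m6, -⟩ := hM1 R G Φ (by linarith) hOKA
  obtain ⟨r1, r2, r3, -⟩ := m4 (A.n R) y y' hb
  -- the number of steps
  have hn1 : 1 ≤ A.n R := by
    rw [Par.n]
    exact (Nat.one_le_floor_iff _).2 g1
  obtain ⟨m, hm⟩ : ∃ m, A.n R = m + 1 := ⟨A.n R - 1, by omega⟩
  have hnle : (A.n R : ℝ) ≤ A.e2 * Real.log R := Nat.floor_le (by linarith)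
  -- the chart of y'
  set κ : Γ := y.1⁻¹ * y'.1 with hκ
  have hκinv : κ⁻¹ = y'.1⁻¹ * y.1 := by rw [hκ]; group
  have hCrn : Cr ^ (A.n R + 1) * A.r R ≤ 1 := by
    have p1 : Cr ^ (A.n R) ≤ R ^ (A.e2 * Real.log Cr) := A9DD_pow hCr hR0 hnle
    have p2 : A.r R = R ^ (-(1 / 2) + A.z2) := rfl
    have p3 : Cr ^ (A.n R + 1) ≤ R ^ (3 / 8 : ℝ) * R ^ (1 / 16 : ℝ) := by
      rw [pow_succ, mul_comm]
      exact mul_le_mul g3 (p1.trans (Real.rpow_le_rpow_of_exponent_le hR1 hlre)) (by positivity) (by positivity)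
    calc Cr ^ (A.n R + 1) * A.r R ≤ R ^ (3 / 8 : ℝ) * R ^ (1 / 16 : ℝ) * R ^ (-(1 / 2) + A.z2) := by
          rw [p2]; exact mul_le_mul_of_nonneg_right p3 (by positivity)
      _ = R ^ (3 / 8 + 1 / 16 + (-(1 / 2) + A.z2) : ℝ) := by rw [← Real.rpow_add hR0, ← Real.rpow_add hR0]
      _ ≤ R ^ (0 : ℝ) := Real.rpow_le_rpow_of_exponent_le hR1 (by linarith)
      _ = 1 := Real.rpow_zero R
  have hdist := hRC G Φ R (A.r R) (A.n R) y y' hOKA (by linarith) (Real.rpow_nonneg hR0.le _) hCrn r1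
  have hbase : ‖(fch Φ κ ((m + 1 + 1 : ℕ) : ℝ) y.2).1‖ ≤ r0 + 1 := by
    have e1 : fch Φ κ ((m + 1 + 1 : ℕ) : ℝ) y.2 = lft (y'.1⁻¹ * y.1) (Φ ((A.n R : ℝ) + 1) y.2) := by
      rw [fch, hκinv, hm]
      push_cast
      rfl
    rw [e1]
    have e2 : dist (lft (y'.1⁻¹ * y.1) (Φ ((A.n R : ℝ) + 1) y.2)).1 y'.2.1 ≤ 1 :=
      (le_max_left _ _).trans ((Prod.dist_eq (x := (lft (y'.1⁻¹ * y.1) (Φ ((A.n R : ℝ) + 1) y.2) : P d)) (y := y'.2)).symm.le.trans (hdist.trans hCrn))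
    have e3 : ‖y'.2.1‖ ≤ r0 := r3.1
    rw [dist_eq_norm] at e2
    calc ‖(lft (y'.1⁻¹ * y.1) (Φ ((A.n R : ℝ) + 1) y.2)).1‖ = ‖((lft (y'.1⁻¹ * y.1) (Φ ((A.n R : ℝ) + 1) y.2)).1 - y'.2.1) + y'.2.1‖ := by rw [sub_add_cancel]
      _ ≤ _ := (norm_add_le _ _).trans (by linarith)
  obtain ⟨κ0, hκ0⟩ := A9DD_cover hPU Φ ((m + 1 : ℕ) : ℝ) y.2
  obtain ⟨κ3, hκ3⟩ := A9DD_cover hPU Φ ((m + 1 + 1 + 1 : ℕ) : ℝ) y.2
  have hy74 : y ∈ GW Γ G r0 (7 / 4) R := A9DD_GW (by norm_num) hR0.le hy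
  have hpow3 : C1 ^ (m + 1 + 1 + 2) ≤ R ^ e := by
    have p1 : C1 ^ (A.n R) ≤ R ^ (A.e2 * Real.log C1) := A9DD_pow hC1 hR0 hnle
    calc C1 ^ (m + 1 + 1 + 2) = C1 ^ 3 * C1 ^ (A.n R) := by rw [hm, ← pow_add]; congr 1; ring
      _ ≤ R ^ A.e2 * R ^ (A.e2 * Real.log C1) := mul_le_mul g2 p1 (by positivity) (by positivity)
      _ = R ^ e := by rw [← Real.rpow_add hR0, he]; congr 1; ring
  have hpow2 : C1 ^ (m + 1 + 2) ≤ R ^ e := (pow_le_pow_right₀ hC1 (by omega)).trans hpow3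
  -- the long beam at the time m + 1
  obtain ⟨a, ha, hu⟩ := hI1 R G Φ y m κ0 (by linarith) hOKA hy74 (by omega) hκ0
  obtain ⟨b1, b2, -, -, -, a', ha', b3⟩ := hO1 R G Φ y (m + 1) κ0 κ a (by linarith) hOKA hy74 hpow2 hκ0 hbase ha
  obtain ⟨c1, -, c3, -, c5, -⟩ := hO1 R G Φ y (m + 1 + 1) κ κ3 a' (by linarith) hOKA hy74 hpow3 hbase hκ3 ha'
  obtain ⟨-, -, hs3⟩ := hS1 R G Φ (by linarith) hOKA
  obtain ⟨f1, -, -, -, f5, -⟩ := hG1 R 1 G Φ (by linarith) hOKA (by norm_num)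
  obtain ⟨q1, q2, -, -, q5, q6, q7⟩ := hQ1 R G (by linarith) hc
  have hDm : Dm (⊥ : Subgroup Γ) (univ : Set (V d)) (univ : Set Γ) := Or.inr ⟨rfl, rfl, rfl⟩
  obtain ⟨q8, -, -⟩ := q7 ⊥ univ univ hDm
  obtain ⟨d1, d2, d3⟩ := (hF 0 (Cg * A.z1) (R ^ (3 * (d : ℝ) / 4 + Cg * A.z1)) R 1 G Φ _ (by linarith) hOKA (mul_pos (by linarith) hz1) hgz (Real.rpow_nonneg hR0.le _) (by norm_num) f1).2.2 ⊥ univ univ hDm
  set φ : V d → ℂ := LB G Φ χ ch A.z ζ2 R y (m + 1) κ0 a with hφ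
  set q : YS Γ d → ℂ := QF (Γ := Γ) G χ ch A.z R φ with hq
  have hqFP : FP (⊥ : Subgroup Γ) univ q := (q8 φ b1).1
  have hgFH : FH (⊥ : Subgroup Γ) univ (Gp G χ ch A.z R y') := A9DD_Gp hK y' q1 (fun z hz' => (q2 y' z hz').2.2)
  set j : YS Γ d → ℂ := aF G r0 R (fP G Φ χ ch A.z A.z1 R 1) (Gp G χ ch A.z R y') with hj
  have hjFP : FP (⊥ : Subgroup Γ) univ j := d2 _ hgFH
  have hSFH := d1 q hqFP
  have hdual := d3 (Gp G χ ch A.z R y') q hgFH hqFP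
  -- the kernel and the overlap
  have hJ : ∀ x ∈ GW Γ G r0 2 R, j x = ∫ z, conj (psi G Φ χ ch A.z A.z1 R 1 x z) * Gp G χ ch A.z R y' z ∂mv G := by
    intro x hx
    rw [hj, aF, Set.indicator_of_mem hx]
    apply integral_congr_ae
    filter_upwards with z
    rw [f5, mul_comm]
  have hwj : ∀ x ∈ GW Γ G r0 2 R, ‖us G Φ r0 χ ch A R x y' - j x‖ ≤ R ^ (-1 : ℝ) ∧ (us G Φ r0 χ ch A R x y' - j x ≠ 0 → y'.1⁻¹ * x.1 ∈ SG Γ d Cl) := by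
    intro x hx
    obtain ⟨-, l2, l3⟩ := hL1 R 1 G Φ x y' (by linarith) hOKA (by norm_num) hx r3
    rw [hJ x hx]
    by_cases hst : St G Φ r0 (A.r R) R x y'
    · have e1 : us G Φ r0 χ ch A R x y' = ∫ z, conj (psi G Φ χ ch A.z A.z1 R 1 x z) * Gp G χ ch A.z R y' z ∂mv G := if_pos hst
      rw [e1, sub_self, norm_zero]
      exact ⟨Real.rpow_nonneg hR0.le _, fun h => absurd rfl h⟩
    · have e1 : us G Φ r0 χ ch A R x y' = 0 := if_neg hst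
      rw [e1, zero_sub, norm_neg]
      have hnd : ¬ dist (Φ 1 x.2) (rel x y') < R ^ (-(1 / 2) + Cl * A.z1) := by
        intro hlt
        apply hst
        refine ⟨hx, r3, lt_of_lt_of_le hlt ?_⟩
        exact Real.rpow_le_rpow_of_exponent_le hR1 (by linarith)
      refine ⟨l3 hnd, fun h => ?_⟩
      obtain ⟨x0, hx0, hx1⟩ := l2 (neg_ne_zero.1 h)
      refine ⟨(x.1⁻¹ * y'.1) • x0, hx1, ?_⟩
      have : (y'.1⁻¹ * x.1) • (x.1⁻¹ * y'.1) • x0 = x0 := by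
        rw [← mul_smul]
        rw [show y'.1⁻¹ * x.1 * (x.1⁻¹ * y'.1) = 1 by group, one_smul]
      rw [this]; exact hx0
  have hvol : mY Γ d {x | x ∈ GW Γ G r0 2 R ∧ y'.1⁻¹ * x.1 ∈ SG Γ d Cl} ≤ ENNReal.ofReal Cv := (hV R G Φ hR1 hOKA y' y'.2 0 1 one_pos).2.1
  have K1 : nP G r0 univ 2 R (fun x => us G Φ r0 χ ch A R x y') ≤ R ^ ((d : ℝ) + Cs * A.z2) :=
    A9DD_w2 G r0 R _ _ (A9DD_col m1 y').meas (Real.rpow_nonneg hR0.le _) (hs3 y').2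
  have K3 : nP G r0 univ 2 R (fun x => us G Φ r0 χ ch A R x y' - j x) ≤ R ^ (-2 : ℝ) * Cv :=
    A9DD_wj h11 hK hc r0 R Cv hR0 _ y' (SG Γ d Cl) (fun x hx => (hwj x hx).1) (fun x hx => (hwj x hx).2) hvol (by linarith)
  have K4 : nP G r0 univ 2 R q ≤ 2 * R ^ ((d : ℝ) + Co * ζ2) := by
    have hnn : 0 ≤ nn G univ φ := by
      rw [A9DD_nn]; exact integral_nonneg fun z => by positivity
    have h0 := ((hA1 R G (by linarith) hc ⊥ univ univ hDm).1 φ b1).1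
    have h0' : R ^ (-(1 / 4) : ℝ) ≤ 1 := Real.rpow_le_one_of_one_le_of_nonpos hR1 (by norm_num)
    refine h0.trans (mul_le_mul (by linarith) b2 hnn (by norm_num))
  have K5 : nn G univ (Gp G χ ch A.z R y') ≤ (R / (2 * Real.pi)) ^ d := by
    rw [A9DD_nn, q5 y']
    have hχ := hPU.bd y'.2.1
    have : χ y'.2.1 ^ 2 ≤ 1 := pow_le_one₀ hχ.1 hχ.2
    exact mul_le_of_le_one_left (by positivity) this
  have hcomp : ub G Φ r0 χ ch A R y y' = cmZ (mY Γ d) (usn G Φ r0 χ ch A R m) (us G Φ r0 χ ch A R) y y' := by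
    rw [ub, hm]; exact m6 m y y'
  have hMnn : 0 ≤ Co * R ^ (3 * (d : ℝ) / 4) * ‖a'‖ := by positivity
  have hfin := A9DD_core h11 h12 hK hc r0 R (us G Φ r0 χ ch A R) (usn G Φ r0 χ ch A R m) m1 (m2 m) y y' (fun x hx => (m3 x y' hx).1.1) q j hqFP hjFP
    (Gp G χ ch A.z R y') _ (LB G Φ χ ch A.z ζ2 R y (m + 1 + 1) κ a') hgFH hSFH c1 hdual _ _ _ _ _ _ _ _ K1 hu K3 K4 K5 b3 c3 (q6 y') hMnn
  rw [← hcomp] at hfin
  have hb2 := hfin.trans (A9DD_num hR1 hsz hiζ hoζ g4 (by linarith))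
  have hYfun : (fun q => lft (y.1⁻¹ * y'.1)⁻¹ (Φ (A.tu R) q)) = fch Φ κ ((m + 1 + 1 : ℕ) : ℝ) := by
    funext q
    rw [fch, Par.tu, hm]
    push_cast
    rfl
  rw [hYfun]
  exact A9DD_fin hR1 (hzz1.trans hz1z2) hz.le (by linarith) hoζ (norm_nonneg _) hb2 ha' (norm_nonneg _) c5 g5

end

end Pool.Agent.VD
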