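import Pool.Agent.helper62.VD.SpecL

/-!
# Row vd:ALDA (data along long orbits)
-/

set_option autoImplicit false

open scoped ContDiff Topology InnerProductSpace ComplexConjugate ENNReal
open MeasureTheory Filter Set

namespace Pool.Agent.VD

noncomputable section

theorem ALDA_mono {d : ℕ} {L L' : ℝ} {Y0 P0 : MC d} (h : Lag L Y0 P0) (hL : L ≤ L') : Lag L' Y0 P0 :=
  ⟨h.sym, h.pos, fun i j => (h.bdY i j).trans hL, fun i j => (h.bdP i j).trans hL⟩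

theorem ALDA_proof (h1 : ALCH_stmt) (h2 : ALSY_stmt) (h3 : ALFX_stmt) (h4 : ASGF_stmt) (h5 : ACNF_stmt) : ALDA_stmt := by
  intro d Γ _ _ K k B r0 χ hK hPU
  obtain ⟨C1, hC1, hA⟩ := h5 d Γ K k B (r0 + 1) 1 hK
  have hr0 : 1 ≤ r0 := hPU.one
  set r2 : ℝ := C1 + r0 + 1 with hr2
  obtain ⟨-, -, C2, hC2, hS⟩ := h4 d Γ K hK r2 0
  obtain ⟨C3, hC3, hY, -, hL1⟩ := h2 d (C2 * C1)
  refine ⟨C3 + C1, by linarith, ?_⟩
  intro G Φ hO p n κ hp hE hbase
  obtain ⟨hlsm, hl1, hlmul, -, hHl, hcomm, hHF, -, hsyl, hsyF, -⟩ := h3 d Γ K k B G Φ hO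
  have hFsm : ∀ t : ℝ, ContDiff ℝ ∞ (Φ t) := fun t => hO.flow.smooth.comp (contDiff_const.prodMk contDiff_id)
  have hne : (∞ : WithTop ℕ∞) ≠ 0 := by simp
  have hld : ∀ (γ : Γ) (q : P d), DifferentiableAt ℝ (lft γ : P d → P d) q := fun γ q => (hlsm γ).differentiable hne q
  have hFd : ∀ (t : ℝ) (q : P d), DifferentiableAt ℝ (Φ t) q := fun t q => (hFsm t).differentiable hne q
  have hEH : ∀ q : P d, |Ep G q| ≤ 1 / 8 → Ham G q ≤ 2 := fun q hq => by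
    have := (abs_le.1 hq).2
    unfold Ep at this
    linarith
  have hEp : ∀ (κ : Γ) (t : ℝ) (q : P d), Ep G (fch Φ κ t q) = Ep G q := fun κ t q => by
    unfold Ep fch
    rw [hHl, hHF]
  have hmom : ∀ q : P d, ‖q.1‖ ≤ r0 + 1 → |Ep G q| ≤ 1 / 8 → ‖q.2‖ ≤ C1 := fun q hq hq2 => by
    have := (hA G Φ hO q 0 hq (hEH q hq2) (by simp)).2.1
    rwa [hO.flow.zero] at this
  have hEf : ∀ (κ : Γ) (t : ℝ), |Ep G (fch Φ κ t p)| ≤ 1 / 8 := fun κ t => by rw [hEp]; exact hE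
  have hCC : ∀ m : ℕ, 1 ≤ (C3 + C1) ^ (m + 1) := fun m => one_le_pow₀ (by linarith)
  have main : ∀ (n : ℕ) (κ : Γ), ‖(fch Φ κ n p).1‖ ≤ r0 + 1 → Lag ((C3 + C1) ^ (n + 1)) (Yf (fch Φ κ n) p 1 (Complex.I • 1)) (Pf (fch Φ κ n) p 1 (Complex.I • 1)) := by
    intro n
    induction n with
    | zero =>
      intro κ hb
      have e0 : fch Φ κ ((0 : ℕ) : ℝ) = lft κ⁻¹ := by
        funext q
        simp only [fch, Nat.cast_zero]
        rw [hO.flow.zero]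
      rw [e0] at hb ⊢
      have hmem : κ⁻¹ ∈ SG Γ d r2 := by
        refine ⟨p.1, by linarith, ?_⟩
        have : ‖κ⁻¹ • p.1‖ ≤ r0 + 1 := hb
        linarith
      have hp1 : ‖p.1‖ ≤ r2 := by linarith
      have hp2 : ‖p.2‖ ≤ r2 := by linarith [hmom p (by linarith) hE]
      have hD := ((hS κ⁻¹ hmem p.1 hp1).2.2.2 p p hp1 hp1 hp2 hp2).2.2
      have hD2 : ‖fderiv ℝ (lft κ⁻¹ : P d → P d) p‖ ≤ C2 * C1 := hD.trans (by nlinarith)
      have := hY (lft κ⁻¹) p 1 1 (Complex.I • 1) le_rfl (fun v w => hsyl κ⁻¹ p v w) hD2 hL1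
      refine ALDA_mono this ?_
      simp only [mul_one, zero_add, pow_one]
      linarith
    | succ n ih =>
      intro κ hb
      obtain ⟨γ, hγ⟩ := hPU.cover (Φ n p).1
      set κ0 : Γ := γ⁻¹ with hκ0
      have hb0 : ‖(fch Φ κ0 n p).1‖ ≤ r0 - 1 := by
        have : (fch Φ κ0 n p).1 = γ • (Φ n p).1 := by
          simp only [fch, hκ0, inv_inv]
          rfl
        rw [this]; exact hγ
      have ihL := ih κ0 (by linarith)
      set f0 : P d → P d := fch Φ κ0 n with hf0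
      set q0 : P d := f0 p with hq0
      set g : P d → P d := fun q => lft (κ⁻¹ * κ0) (Φ 1 q) with hg
      have ecomp : fch Φ κ ((n + 1 : ℕ) : ℝ) = fun q => g (f0 q) := by
        funext q
        simp only [hg, hf0, fch]
        rw [hcomm, ← hlmul, ← hO.flow.add]
        rw [show κ⁻¹ * κ0 * κ0⁻¹ = κ⁻¹ by group]
        rw [show ((n + 1 : ℕ) : ℝ) = 1 + (n : ℝ) by push_cast; ring]
      have hq0E : |Ep G q0| ≤ 1 / 8 := hEf κ0 n
      have hq0b : ‖q0.1‖ ≤ r0 + 1 := by linarith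
      obtain ⟨c1, c2, c3, -, -⟩ := hA G Φ hO q0 1 hq0b (hEH q0 hq0E) (by simp)
      have hbg : ‖(g q0).1‖ ≤ r0 + 1 := by
        have : g q0 = fch Φ κ ((n + 1 : ℕ) : ℝ) p := by rw [ecomp]
        rw [this]; exact hb
      have hmem : κ⁻¹ * κ0 ∈ SG Γ d r2 := by
        refine ⟨(Φ 1 q0).1, by linarith, ?_⟩
        have : ‖(κ⁻¹ * κ0) • (Φ 1 q0).1‖ ≤ r0 + 1 := hbg
        linarith
      have hx1 : ‖(Φ 1 q0).1‖ ≤ r2 := by linarith
      have hx2 : ‖(Φ 1 q0).2‖ ≤ r2 := by linarith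
      have hD := ((hS (κ⁻¹ * κ0) hmem (Φ 1 q0).1 hx1).2.2.2 (Φ 1 q0) (Φ 1 q0) hx1 hx1 hx2 hx2).2.2
      have hfd : fderiv ℝ g q0 = (fderiv ℝ (lft (κ⁻¹ * κ0) : P d → P d) (Φ 1 q0)).comp (fderiv ℝ (Φ 1) q0) :=
        fderiv_comp q0 (hld _ _) (hFd 1 q0)
      have hgn : ‖fderiv ℝ g q0‖ ≤ C2 * C1 := by
        rw [hfd]
        exact (ContinuousLinearMap.opNorm_comp_le _ _).trans (mul_le_mul hD c3 (norm_nonneg _) (by linarith))
      have hgs : ∀ v w, omg (fderiv ℝ g q0 v) (fderiv ℝ g q0 w) = omg v w := by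
        intro v w
        rw [hfd]
        simp only [ContinuousLinearMap.comp_apply]
        rw [hsyl, hsyF]
      have hgd : DifferentiableAt ℝ g (f0 p) := (hld (κ⁻¹ * κ0) (Φ 1 (f0 p))).comp (f0 p) (hFd 1 (f0 p))
      have hf0d : DifferentiableAt ℝ f0 p := (hld κ0⁻¹ (Φ n p)).comp p (hFd n p)
      have hch := h1 d f0 g p 1 (Complex.I • 1) hf0d hgd
      have hfin := hY g q0 ((C3 + C1) ^ (n + 1)) _ _ (hCC n) hgs hgn ihL
      rw [ecomp, hch.1, hch.2.1]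
      refine ALDA_mono hfin ?_
      rw [pow_succ (C3 + C1) (n + 1), mul_comm]
      exact mul_le_mul_of_nonneg_left (by linarith) (by linarith [hCC n])
  refine ⟨main n κ hbase, hEp κ n p, ?_⟩
  exact (hmom _ hbase (hEf κ n)).trans (by linarith)

end

end Pool.Agent.VD
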